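import Pool.Agent.L0h82.GT.Stm

/-! # Module SWA of the board GT: the splits of six points are swapped by listed permutations -/

set_option autoImplicit false

namespace Pool.Agent.L0h91.GT

open Pool.Agent.L0h82.GT

universe u

/-- the list `L` contains all the permutations which swap `A` and `B`. -/
def chk (A B : List ℕ) (L : List (ℕ × ℕ)) : Bool :=
  (A.length == 3) && (B.length == 3) && decide (A ++ B).Nodup && (A ++ B).all (fun i => i < 6) &&
  (List.range 6).all (fun i => (A ++ B).contains i) &&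
  B.all fun c0 => B.all fun c1 => B.all fun c2 => A.all fun d0 => A.all fun d1 => A.all fun d2 =>
    c0 == c1 || c0 == c2 || c1 == c2 || d0 == d1 || d0 == d2 || d1 == d2 ||
    L.any fun e => ((A ++ B).zip [c0, c1, c2, d0, d1, d2]).all fun q => dg e.1 q.1 == q.2

theorem chk_all : ∀ p ∈ SA.zip HL, chk p.1.1 p.1.2 p.2 = true := by decide +kernel

theorem zip_HL : (SA.zip HL).map Prod.snd = HL := by decide +kernel

theorem aux {X : Type u} (G : Subgroup (Equiv.Perm X)) (w : ℕ → X) (hG : Gen G)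
    (hw : Set.InjOn w (Set.Iio 6)) (A B : List ℕ) (L : List (ℕ × ℕ)) (h : chk A B L = true) :
    ∃ e ∈ L, ∃ g ∈ G, ∀ i < 6, g (w i) = w (dg e.1 i) := by
  classical
  simp only [chk, Bool.and_eq_true, beq_iff_eq, decide_eq_true_eq] at h
  obtain ⟨⟨⟨⟨⟨hA, hB⟩, hnd⟩, hlt⟩, hcov⟩, hall⟩ := h
  obtain ⟨a0, a1, a2, rfl⟩ := List.length_eq_three.1 hA
  obtain ⟨b0, b1, b2, rfl⟩ := List.length_eq_three.1 hB
  simp only [List.cons_append, List.nil_append, List.all_cons, List.all_nil, Bool.and_true,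
    Bool.and_eq_true, decide_eq_true_eq] at hlt
  obtain ⟨l0, l1, l2, m0, m1, m2⟩ := hlt
  have hinj : ∀ i j : ℕ, i < 6 → j < 6 → w i = w j → i = j := fun i j hi hj e => hw hi hj e
  simp only [List.cons_append, List.nil_append, List.nodup_cons, List.mem_cons, List.not_mem_nil,
    or_false, not_or, not_false_eq_true, List.nodup_nil, and_true] at hnd
  obtain ⟨⟨n01, n02, n03, n04, n05⟩, ⟨n12, n13, n14, n15⟩, ⟨n23, n24, n25⟩, ⟨n34, n35⟩, n45⟩ := hnd
  have cA : ({w a0, w a1, w a2} : Finset X).card = 3 :=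
    Finset.card_eq_three.2 ⟨w a0, w a1, w a2, fun e => n01 (hinj _ _ l0 l1 e),
      fun e => n02 (hinj _ _ l0 l2 e), fun e => n12 (hinj _ _ l1 l2 e), rfl⟩
  have cB : ({w b0, w b1, w b2} : Finset X).card = 3 :=
    Finset.card_eq_three.2 ⟨w b0, w b1, w b2, fun e => n34 (hinj _ _ m0 m1 e),
      fun e => n35 (hinj _ _ m0 m2 e), fun e => n45 (hinj _ _ m1 m2 e), rfl⟩
  obtain ⟨g, hg, hAB, hBA⟩ := hG _ _ cA cB
  have toB : ∀ a, w a ∈ ({w a0, w a1, w a2} : Finset X) → ∃ c ∈ [b0, b1, b2], g (w a) = w c := by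
    intro a ha
    have := hAB _ ha
    simp only [Finset.mem_insert, Finset.mem_singleton] at this
    rcases this with h | h | h
    · exact ⟨b0, by simp, h⟩
    · exact ⟨b1, by simp, h⟩
    · exact ⟨b2, by simp, h⟩
  have toA : ∀ a, w a ∈ ({w b0, w b1, w b2} : Finset X) → ∃ c ∈ [a0, a1, a2], g (w a) = w c := by
    intro a ha
    have := hBA _ ha
    simp only [Finset.mem_insert, Finset.mem_singleton] at this
    rcases this with h | h | h
    · exact ⟨a0, by simp, h⟩
    · exact ⟨a1, by simp, h⟩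
    · exact ⟨a2, by simp, h⟩
  obtain ⟨c0, hc0, e0⟩ := toB a0 (by simp)
  obtain ⟨c1, hc1, e1⟩ := toB a1 (by simp)
  obtain ⟨c2, hc2, e2⟩ := toB a2 (by simp)
  obtain ⟨d0, hd0, f0⟩ := toA b0 (by simp)
  obtain ⟨d1, hd1, f1⟩ := toA b1 (by simp)
  obtain ⟨d2, hd2, f2⟩ := toA b2 (by simp)
  have ne : ∀ i j c d : ℕ, i < 6 → j < 6 → g (w i) = w c → g (w j) = w d → i ≠ j → c ≠ d := by
    intro i j c d hi hj h1 h2 hij hcd
    apply hij
    apply hinj i j hi hj
    apply g.injective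
    rw [h1, h2, hcd]
  have r1 := ne _ _ _ _ l0 l1 e0 e1 n01
  have r2 := ne _ _ _ _ l0 l2 e0 e2 n02
  have r3 := ne _ _ _ _ l1 l2 e1 e2 n12
  have s1 := ne _ _ _ _ m0 m1 f0 f1 n34
  have s2 := ne _ _ _ _ m0 m2 f0 f2 n35
  have s3 := ne _ _ _ _ m1 m2 f1 f2 n45
  have H := hall
  rw [List.all_eq_true] at H
  have H := H c0 hc0
  rw [List.all_eq_true] at H
  have H := H c1 hc1
  rw [List.all_eq_true] at H
  have H := H c2 hc2
  rw [List.all_eq_true] at H
  have H := H d0 hd0
  rw [List.all_eq_true] at H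
  have H := H d1 hd1
  rw [List.all_eq_true] at H
  have H := H d2 hd2
  simp only [Bool.or_eq_true, beq_iff_eq, r1, r2, r3, s1, s2, s3, false_or, List.any_eq_true] at H
  obtain ⟨e, he, hz⟩ := H
  refine ⟨e, he, g, hg, ?_⟩
  simp only [List.cons_append, List.nil_append, List.zip_cons_cons,
    List.zip_nil_right, List.all_cons, List.all_nil, Bool.and_true, Bool.and_eq_true,
    beq_iff_eq] at hz
  obtain ⟨z0, z1, z2, z3, z4, z5⟩ := hz
  intro i hi
  rw [List.all_eq_true] at hcov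
  have hi' := hcov i (List.mem_range.2 hi)
  simp only [List.cons_append, List.nil_append, List.contains_iff_mem, List.mem_cons,
    List.not_mem_nil, or_false] at hi'
  rcases hi' with rfl | rfl | rfl | rfl | rfl | rfl
  · rw [z0, e0]
  · rw [z1, e1]
  · rw [z2, e2]
  · rw [z3, f0]
  · rw [z4, f1]
  · rw [z5, f2]

theorem t_SWA : S_SWA.{u} := by
  intro X G w hG hw L hL
  have hL' : L ∈ (SA.zip HL).map Prod.snd := by rw [zip_HL]; exact hL
  obtain ⟨p, hp, rfl⟩ := List.mem_map.1 hL'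
  exact aux G w hG hw p.1.1 p.1.2 p.2 (chk_all p hp)

end Pool.Agent.L0h91.GT
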